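import Pool.Agent.Q201.ACFODef
import Pool.Agent.Q201.ACFOHyp

/-!
# Every model of ACFO interprets a random `(n+1)`-hypergraph

The vertices are the pairs `(s, t)` with `s ≠ 0`; `n + 1` distinct vertices form an edge if
`g < c` for a certain symmetric polynomial `g` and a fixed `c`. For different sets `S` of `n`
vertices the polynomials `g(v, S)` in the coordinates of `v` are irreducible and pairwise not
associated, hence multiplicatively independent, and genericity applies.
-/

set_option autoImplicit false

namespace Pool.Agent.Results.MP_224b2b_lc.RandomHypergraphs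

open FirstOrder Language Q201.ACFO Q201.ACFO.Hyp

universe u

/-- `(X, R)` is a random `(n+1)`-hypergraph: `R` is symmetric and holds only for tuples of distinct
elements, and for all finite disjoint families `A`, `B` of `n`-element subsets of `X` there is `v`
outside all members of `A` and `B` with `R(v, a)` for all members `a` of `A` and `¬ R(v, b)` for all
members `b` of `B`. -/
structure IsRandomHypergraph {X : Type u} (n : ℕ) (R : (Fin (n + 1) → X) → Prop) : Prop where
  symm : ∀ (π : Equiv.Perm (Fin (n + 1))) (a : Fin (n + 1) → X), R (a ∘ π) ↔ R a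
  distinct : ∀ a, R a → Function.Injective a
  ext : ∀ A B : Finset (Finset X), (∀ S ∈ A, S ∉ B) → (∀ S ∈ A, S.card = n) →
    (∀ S ∈ B, S.card = n) → ∃ v : X, (∀ S ∈ A, v ∉ S) ∧ (∀ S ∈ B, v ∉ S) ∧
      (∀ S ∈ A, ∀ e : Fin n → X, Function.Injective e → Set.range e = (S : Set X) →
        R (Fin.cons v e)) ∧
      (∀ S ∈ B, ∀ e : Fin n → X, Function.Injective e → Set.range e = (S : Set X) →
        ¬ R (Fin.cons v e))

/-- The structure `M` interprets a random `(n+1)`-hypergraph: there are a definable set `X ⊆ M ^ d`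
and a definable equivalence relation on `X` such that the quotient carries a definable relation that
makes it a random `(n+1)`-hypergraph. Definable means definable with parameters. -/
def InterpretsRandomHypergraph (L : FirstOrder.Language.{0, 0}) (M : Type u) [L.Structure M]
    (n : ℕ) : Prop :=
  ∃ (d : ℕ) (X : Set (Fin d → M)) (E : Setoid X) (R : (Fin (n + 1) → Quotient E) → Prop),
    (Set.univ : Set M).Definable L X ∧
    (Set.univ : Set M).Definable L {z : Fin 2 × Fin d → M |
      ∃ a b : X, (∀ j, z (0, j) = a.1 j) ∧ (∀ j, z (1, j) = b.1 j) ∧ E a b} ∧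
    (Set.univ : Set M).Definable L {z : Fin (n + 1) × Fin d → M |
      ∃ a : Fin (n + 1) → X, (∀ i j, z (i, j) = (a i).1 j) ∧ R fun i => Quotient.mk E (a i)} ∧
    IsRandomHypergraph n R

section

variable {F : Type u} [Field F]

theorem g_perm [Infinite F] (n : ℕ) (π : Equiv.Perm (Fin (n + 1))) (s t : Fin (n + 1) → F) :
    g n (s ∘ π) (t ∘ π) = g n s t := by
  unfold g
  congr 1
  · exact Equiv.sum_comp π (fun i => t i ^ 2 + s i ^ bb n)
  · apply Finset.sum_congr rfl
    intro u _
    exact Equiv.prod_comp π (fun i => ll n u (s i) (t i) * s i ^ kk n u)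

theorem main [Infinite F] {D : OrdData Fˣ} (hgo : GoodOrder D.lt) (hg : IsGeneric F D)
    {X : Type u} (s t : X → F) (hs : ∀ x, s x ≠ 0)
    (hst : ∀ x y, s x = s y → t x = t y → x = y) (hsurj : ∀ σ τ : F, σ ≠ 0 → ∃ x, s x = σ ∧ t x = τ)
    (c₀ c₁ c₂ : Fˣ) (h01 : D.lt c₀ c₁) (h12 : D.lt c₁ c₂) (n : ℕ) :
    IsRandomHypergraph n (fun a : Fin (n + 1) → X => Function.Injective a ∧
      ∃ z z' : Fˣ, (z : F) = g n (s ∘ a) (t ∘ a) ∧ (z' : F) = c₁ ∧ D.lt z z') := by
  classical
  refine ⟨?_, fun a h => h.1, ?_⟩
  · intro π a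
    have h1 : Function.Injective (a ∘ π) ↔ Function.Injective a := by
      constructor
      · intro h
        have := h.comp π.symm.injective
        simpa [Function.comp_assoc] using this
      · intro h; exact h.comp π.injective
    have h2 : g n (s ∘ (a ∘ π)) (t ∘ (a ∘ π)) = g n (s ∘ a) (t ∘ a) := g_perm n π (s ∘ a) (t ∘ a)
    rw [h1, h2]
  · intro A B hAB hA hB
    let G : Finset X → Polynomial (Polynomial F) := fun S => GG s t n S
    let P : F → Polynomial (Polynomial F) := fun r => Polynomial.C (Polynomial.X - Polynomial.C r)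
    let Q : Finset (Polynomial (Polynomial F)) := A.image G
    let W : Finset (Polynomial (Polynomial F)) :=
      {Polynomial.X, P 0} ∪ (((A ∪ B).biUnion id).image fun x => P (s x)) ∪ (A.image G ∪ B.image G)
    have hP : ∀ r : F, Irreducible (P r) := fun r =>
      (Polynomial.prime_C_iff.mpr (Polynomial.prime_X_sub_C r)).irreducible
    have hP' : ∀ r : F, Nrm (P r) := by
      intro r
      show (P r).leadingCoeff.leadingCoeff = 1
      rw [Polynomial.leadingCoeff_C, Polynomial.leadingCoeff_X_sub_C]
    have hW : ∀ f ∈ W, Irreducible f ∧ Nrm f := by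
      intro f hf
      rcases Finset.mem_union.mp hf with h1 | h1
      · rcases Finset.mem_union.mp h1 with h2 | h2
        · rcases Finset.mem_insert.mp h2 with h3 | h3
          · rw [h3]; exact ⟨Polynomial.irreducible_X, by simp [Nrm]⟩
          · rw [Finset.mem_singleton.mp h3]; exact ⟨hP 0, hP' 0⟩
        · obtain ⟨x, _, rfl⟩ := Finset.mem_image.mp h2
          exact ⟨hP _, hP' _⟩
      · rcases Finset.mem_union.mp h1 with h2 | h2 <;>
        · obtain ⟨S, _, rfl⟩ := Finset.mem_image.mp h2
          exact ⟨GG_irr s t n S, GG_nrm s t n S⟩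
    obtain ⟨σ, τ, hστ⟩ := generic_finset hgo.dense hg W (fun f hf => (hW f hf).1)
      (fun f hf => (hW f hf).2)
      (Finset.mem_union_left _ (Finset.mem_union_left _ (by simp [P])))
      (Finset.mem_union_left _ (Finset.mem_union_left _ (by simp)))
      (fun f => if f ∈ Q then c₀ else c₁) (fun f => if f ∈ Q then c₁ else c₂)
      (by
        intro f _
        by_cases h : f ∈ Q
        · simp only [if_pos h]; exact h01
        · simp only [if_neg h]; exact h12)
    have hev : ∀ r : F, Polynomial.evalEval σ τ (P r) = σ - r := by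
      intro r
      show Polynomial.evalEval σ τ (Polynomial.C (Polynomial.X - Polynomial.C r)) = σ - r
      rw [Polynomial.evalEval_C]
      simp
    have hσ : σ ≠ 0 := by
      obtain ⟨a, ha, _⟩ := hστ (P 0) (Finset.mem_union_left _ (Finset.mem_union_left _ (by simp)))
      rw [hev, sub_zero] at ha
      rw [← ha]; exact a.ne_zero
    obtain ⟨v, hv1, hv2⟩ := hsurj σ τ hσ
    have hout : ∀ S ∈ A ∪ B, v ∉ S := by
      intro S hS hvS
      obtain ⟨a, ha, _⟩ := hστ (P (s v)) (Finset.mem_union_left _ (Finset.mem_union_right _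
        (Finset.mem_image.mpr ⟨v, Finset.mem_biUnion.mpr ⟨S, hS, hvS⟩, rfl⟩)))
      rw [hev, hv1, sub_self] at ha
      exact a.ne_zero ha
    have hcomp : ∀ (f : X → F) (e : Fin n → X),
        f ∘ (Fin.cons v e : Fin (n + 1) → X) = Fin.cons (f v) (f ∘ e) := by
      intro f e
      funext i
      refine Fin.cases ?_ (fun j => ?_) i
      · simp
      · simp
    refine ⟨v, fun S hS => hout S (Finset.mem_union_left _ hS),
      fun S hS => hout S (Finset.mem_union_right _ hS), ?_, ?_⟩
    · intro S hS e he hr
      refine ⟨?_, ?_⟩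
      · apply Fin.cons_injective_iff.mpr
        refine ⟨?_, he⟩
        rw [hr]
        exact hout S (Finset.mem_union_left _ hS)
      · have hGW : G S ∈ W := Finset.mem_union_right _ (Finset.mem_union_left _
          (Finset.mem_image_of_mem _ hS))
        have hGQ : G S ∈ Q := Finset.mem_image_of_mem _ hS
        obtain ⟨a, ha, _, ha3⟩ := hστ (G S) hGW
        rw [if_pos hGQ] at ha3
        refine ⟨a, c₁, ?_, rfl, ha3⟩
        rw [ha, eval_GG s t n S σ τ e he hr, hcomp, hcomp, hv1, hv2]
    · intro S hS e he hr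
      rintro ⟨_, z, z', hz, hz', hlt⟩
      have hGW : G S ∈ W := Finset.mem_union_right _ (Finset.mem_union_right _
        (Finset.mem_image_of_mem _ hS))
      have hGQ : G S ∉ Q := by
        intro h
        obtain ⟨T, hT, hTS⟩ := Finset.mem_image.mp h
        have : T = S := GG_inj s t hs hst (hA T hT) (hB S hS) hTS
        exact hAB T hT (this ▸ hS)
      obtain ⟨a, ha, ha2, _⟩ := hστ (G S) hGW
      rw [if_neg hGQ] at ha2
      have e1 : a = z := by
        apply Units.ext
        rw [ha, hz, eval_GG s t n S σ τ e he hr, hcomp, hcomp, hv1, hv2]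
      have e2 : z' = c₁ := Units.ext hz'
      rw [e1] at ha2
      rw [e2] at hlt
      exact hgo.irrefl _ (hgo.trans _ _ _ ha2 hlt)

end

/-- **Every model of `ACFO` interprets a random `(n+1)`-hypergraph, for every `n`.** -/
theorem result (F : Type u) [Field F] (D : OrdData Fˣ) (h : IsACFO F D) (n : ℕ) :
    letI := rgStructure F D
    InterpretsRandomHypergraph Lc F n := by
  classical
  let _ := rgStructure F D
  have hgo := goodOrder h.1
  have : Infinite F := by
    obtain ⟨p, _, _, h3, _⟩ := h.1
    exact IsAlgClosed.instInfinite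
  obtain ⟨c₁, h01⟩ := hgo.nomax 1
  obtain ⟨c₂, h12⟩ := hgo.nomax c₁
  let X : Set (Fin 2 → F) := {x | x 0 ≠ 0}
  let E : Setoid X := ⊥
  have hE : ∀ a b : X, E a b ↔ a = b := fun a b => Iff.rfl
  have hmk : ∀ a b : X, Quotient.mk E a = Quotient.mk E b ↔ a = b := by
    intro a b
    rw [Quotient.eq]
    exact hE a b
  have hout : ∀ a : X, (Quotient.mk E a).out = a := by
    intro a
    rw [← hmk]
    exact Quotient.out_eq _
  let s : Quotient E → F := fun q => q.out.1 0
  let t : Quotient E → F := fun q => q.out.1 1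
  have hmain := main hgo h.2 s t (fun q => q.out.2)
    (by
      intro x y h1 h2
      have : x.out = y.out := by
        apply Subtype.ext
        funext j
        fin_cases j
        · exact h1
        · exact h2
      rw [← Quotient.out_eq x, this, Quotient.out_eq])
    (by
      intro σ τ hσ
      refine ⟨Quotient.mk E ⟨![σ, τ], hσ⟩, ?_, ?_⟩
      · show (Quotient.mk E ⟨![σ, τ], hσ⟩).out.1 0 = σ
        rw [hout]; rfl
      · show (Quotient.mk E ⟨![σ, τ], hσ⟩).out.1 1 = τ
        rw [hout]; rfl) 1 c₁ c₂ h01 h12 n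
  refine ⟨2, X, E, _, ?_, ?_, ?_, hmain⟩
  · -- `X` is definable
    have h1 : Dfb D {x : Fin 2 → F | x 0 = 0} := dfb_eq D (isTm_var D 0) (isTm_const D 0)
    have h2 := h1.compl
    exact h2
  · have h1 : Dfb D ({z : Fin 2 × Fin 2 → F | z (0, 0) = 0}ᶜ ∩
        ({z | z (0, 0) = z (1, 0)} ∩ {z | z (0, 1) = z (1, 1)})) :=
      ((dfb_eq D (isTm_var D _) (isTm_const D 0)).compl).inter D
        ((dfb_eq D (isTm_var D _) (isTm_var D _)).inter D
          (dfb_eq D (isTm_var D _) (isTm_var D _)))
    have h2 : {z : Fin 2 × Fin 2 → F | ∃ a b : X, (∀ j, z (0, j) = a.1 j) ∧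
        (∀ j, z (1, j) = b.1 j) ∧ E a b} = ({z : Fin 2 × Fin 2 → F | z (0, 0) = 0}ᶜ ∩
        ({z | z (0, 0) = z (1, 0)} ∩ {z | z (0, 1) = z (1, 1)})) := by
      ext z
      constructor
      · rintro ⟨a, b, h1, h2, h3⟩
        rw [hE] at h3
        subst h3
        refine ⟨?_, ?_, ?_⟩
        · show ¬ z (0, 0) = 0
          rw [h1 0]; exact a.2
        · show z (0, 0) = z (1, 0)
          rw [h1 0, h2 0]
        · show z (0, 1) = z (1, 1)
          rw [h1 1, h2 1]
      · rintro ⟨h1, h2, h3⟩
        have h2' : z (0, 0) = z (1, 0) := h2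
        have h3' : z (0, 1) = z (1, 1) := h3
        refine ⟨⟨fun j => z (0, j), h1⟩, ⟨fun j => z (0, j), h1⟩, fun j => rfl, ?_, ?_⟩
        · intro j
          fin_cases j
          · exact h2'.symm
          · exact h3'.symm
        · rw [hE]
    rw [h2]
    exact h1
  · -- the hypergraph is definable
    let z0 : Fin (n + 1) → (Fin (n + 1) × Fin 2 → F) → F := fun i z => z (i, 0)
    let z1 : Fin (n + 1) → (Fin (n + 1) × Fin 2 → F) → F := fun i z => z (i, 1)
    have hg : IsTm D (fun z : Fin (n + 1) × Fin 2 → F => g n (fun i => z (i, 0))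
        (fun i => z (i, 1))) := by
      unfold g
      apply IsTm.add
      · apply isTm_sum
        intro i
        exact ((isTm_var D _).pow D 2).add D ((isTm_var D _).pow D _)
      · apply isTm_sum
        intro u
        apply isTm_prod
        intro i
        apply IsTm.mul
        · unfold ll
          exact ((isTm_const D 1).add D ((isTm_const D _).mul D (isTm_var D _))).add D
            ((isTm_const D _).mul D (isTm_var D _))
        · exact (isTm_var D _).pow D _
    have h1 : Dfb D ((⋂ i, {z : Fin (n + 1) × Fin 2 → F | z (i, 0) = 0}ᶜ) ∩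
        ((⋂ p : {p : Fin (n + 1) × Fin (n + 1) // p.1 ≠ p.2},
          ({z : Fin (n + 1) × Fin 2 → F | z (p.1.1, 0) = z (p.1.2, 0)} ∩
            {z : Fin (n + 1) × Fin 2 → F | z (p.1.1, 1) = z (p.1.2, 1)})ᶜ) ∩
        {z : Fin (n + 1) × Fin 2 → F | ∃ a b : Fˣ, (a : F) = g n (fun i => z (i, 0))
          (fun i => z (i, 1)) ∧ (b : F) = (c₁ : F) ∧ D.lt a b})) := by
      apply Dfb.inter
      · apply dfb_iInter
        intro i
        exact (dfb_eq D (isTm_var D _) (isTm_const D 0)).compl
      · apply Dfb.inter
        · apply dfb_iInter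
          intro p
          exact ((dfb_eq D (isTm_var D _) (isTm_var D _)).inter D
            (dfb_eq D (isTm_var D _) (isTm_var D _))).compl
        · exact dfb_lt D hg (isTm_const D _)
    have h2 : {z : Fin (n + 1) × Fin 2 → F | ∃ a : Fin (n + 1) → X, (∀ i j, z (i, j) = (a i).1 j) ∧
        (Function.Injective (fun i => Quotient.mk E (a i)) ∧ ∃ w w' : Fˣ,
          (w : F) = g n (s ∘ fun i => Quotient.mk E (a i)) (t ∘ fun i => Quotient.mk E (a i)) ∧
            (w' : F) = (c₁ : F) ∧ D.lt w w')} =
        ((⋂ i, {z : Fin (n + 1) × Fin 2 → F | z (i, 0) = 0}ᶜ) ∩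
        ((⋂ p : {p : Fin (n + 1) × Fin (n + 1) // p.1 ≠ p.2},
          ({z : Fin (n + 1) × Fin 2 → F | z (p.1.1, 0) = z (p.1.2, 0)} ∩
            {z : Fin (n + 1) × Fin 2 → F | z (p.1.1, 1) = z (p.1.2, 1)})ᶜ) ∩
        {z : Fin (n + 1) × Fin 2 → F | ∃ a b : Fˣ, (a : F) = g n (fun i => z (i, 0))
          (fun i => z (i, 1)) ∧ (b : F) = (c₁ : F) ∧ D.lt a b})) := by
      have hs : ∀ (a : Fin (n + 1) → X), (s ∘ fun i => Quotient.mk E (a i)) = fun i => (a i).1 0 := by
        intro a; funext i
        show (Quotient.mk E (a i)).out.1 0 = _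
        rw [hout]
      have ht : ∀ (a : Fin (n + 1) → X), (t ∘ fun i => Quotient.mk E (a i)) = fun i => (a i).1 1 := by
        intro a; funext i
        show (Quotient.mk E (a i)).out.1 1 = _
        rw [hout]
      ext z
      constructor
      · rintro ⟨a, ha, hinj, hw⟩
        rw [hs, ht] at hw
        refine ⟨?_, ?_, ?_⟩
        · rw [Set.mem_iInter]
          intro i
          show ¬ z (i, 0) = 0
          rw [ha]; exact (a i).2
        · rw [Set.mem_iInter]
          rintro ⟨⟨i, i'⟩, hii⟩ ⟨h1, h2⟩
          have h1' : z (i, 0) = z (i', 0) := h1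
          have h2' : z (i, 1) = z (i', 1) := h2
          rw [ha, ha] at h1' h2'
          apply hii
          apply hinj
          show Quotient.mk E (a i) = Quotient.mk E (a i')
          rw [hmk]
          apply Subtype.ext
          funext j
          fin_cases j
          · exact h1'
          · exact h2'
        · have e0 : (fun i => z (i, 0)) = fun i => (a i).1 0 := funext fun i => ha i 0
          have e1 : (fun i => z (i, 1)) = fun i => (a i).1 1 := funext fun i => ha i 1
          show ∃ _ _, _
          rw [e0, e1]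
          exact hw
      · rintro ⟨h1, h2, h3⟩
        rw [Set.mem_iInter] at h1 h2
        refine ⟨fun i => ⟨fun j => z (i, j), h1 i⟩, fun i j => rfl, ?_, ?_⟩
        · intro i i' hii
          by_contra hne
          have h4 := (hmk _ _).mp hii
          have h5 := congrArg Subtype.val h4
          exact h2 ⟨(i, i'), hne⟩ ⟨congrFun h5 0, congrFun h5 1⟩
        · rw [hs, ht]
          exact h3
    rw [h2]
    exact h1

end Pool.Agent.Results.MP_224b2b_lc.RandomHypergraphs
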